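import Pool.Agent.helper62.QU.Spec

/-!
Row MAS of the project QU (MP_07c750): the mass of radial kernels.
-/

open scoped MatrixGroups ContDiff Topology UpperHalfPlane
open UpperHalfPlane MeasureTheory Filter Set

namespace Pool.Agent.QU

theorem MAS_inv (h1 : TTT_stmt) (h2 : INV_stmt) (κ : ℝ → ℝ) (z z' : ℍ) :
    ∫ w : ℍ, κ (tt z w) = ∫ w : ℍ, κ (tt z' w) := by
  obtain ⟨-, -, -, hinv, -, -, -, htr⟩ := h1
  obtain ⟨g, hg⟩ := htr z' z
  have h := h2.2.2.2.1 ℝ g (fun w => κ (tt z w))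
  rw [← h, ← hg]
  simp_rw [hinv g]

theorem MAS_lap (w : ℍ) : lap (fun _ : ℍ => (1 : ℝ)) w = 0 := by
  have h1 : onC (fun _ : ℍ => (1 : ℝ)) = fun _ : ℂ => (1 : ℝ) := rfl
  have h2 : fderiv ℝ (fun _ : ℂ => (1 : ℝ)) = fun _ => 0 := by
    funext x
    exact fderiv_const_apply 1
  have h3 : fderiv ℝ (fun _ : ℂ => (0 : ℂ →L[ℝ] ℝ)) (w : ℂ) = 0 := fderiv_const_apply 0
  unfold lap
  rw [h1, h2, h3]
  simp

theorem MAS_zero (h1 : TTT_stmt) (h3 : CA1_stmt) (h4 : LAK_stmt) (h5 : GRN_stmt) (h6 : ROD_stmt)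
    (θ : ℝ → ℝ) (s : ℝ) (hθ : ContDiff ℝ ∞ θ) (hs : 0 < s) (h0 : ∀ t, s ≤ t → θ t = 0)
    (hi : (∫ t in (0 : ℝ)..s, θ t) = 0) (z : ℍ) : ∫ w : ℍ, θ (tt z w) = 0 := by
  obtain ⟨-, hnn, hsym, -⟩ := h1
  obtain ⟨ψ, hψ, -, hL, -⟩ := h6 θ s hθ hs h0 hi
  have hψ2 : ContDiff ℝ 2 ψ := hψ.smooth.of_le (WithTop.coe_le_coe.2 le_top)
  have hc : CD 2 (fun _ : ℍ => (1 : ℝ)) := (h3 ℝ).2.2.2.2.2.2.2.2.1 1 2
  have hk : CD 2 (fun w => ψ (tt w z)) := h4.1 ψ 2 z hψ2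
  have hG := h5 ℝ (fun w => ψ (tt w z)) (fun _ => 1) hk hc (h4.2.2.1 ψ z hψ)
  have e1 : ∀ w : ℍ, θ (tt z w) = -(lap (fun w => ψ (tt w z)) w • (1 : ℝ)) := by
    intro w
    rw [smul_eq_mul, mul_one, h4.2.1 ψ z w hψ2, hL _ (hnn w z), neg_neg, hsym z w]
  simp_rw [e1]
  rw [integral_neg, ← hG]
  simp_rw [MAS_lap]
  simp

theorem MAS_int (h1 : TTT_stmt) (h4 : LAK_stmt) (κ : ℝ → ℝ) (hκ : RK κ) (z : ℍ) :
    Continuous (fun w : ℍ => κ (tt z w)) ∧ HasCompactSupport (fun w : ℍ => κ (tt z w)) := by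
  obtain ⟨-, -, hsym, -, hc, -⟩ := h1
  constructor
  · exact hκ.smooth.continuous.comp (hc.comp (Continuous.prodMk continuous_const continuous_id))
  · have h := h4.2.2.1 κ z hκ
    have e : (fun w : ℍ => κ (tt z w)) = fun w => κ (tt w z) := by
      funext w
      rw [hsym]
    rw [e]
    exact h

theorem MAS (h1 : TTT_stmt) (h2 : INV_stmt) (h3 : CA1_stmt) (h4 : LAK_stmt) (h5 : GRN_stmt)
    (h6 : ROD_stmt) : MAS_stmt := by
  have hpos := h2.2.2.1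
  -- the bump function
  let κ₁ : ℝ → ℝ := fun t => Real.smoothTransition (1 - t)
  have hκ1s : ContDiff ℝ ∞ κ₁ :=
    Real.smoothTransition.contDiff.comp (contDiff_const.sub contDiff_id)
  have hκ10 : ∀ t, 1 ≤ t → κ₁ t = 0 := fun t ht =>
    Real.smoothTransition.zero_of_nonpos (by linarith)
  have hκ1n : ∀ t, 0 ≤ κ₁ t := fun t => Real.smoothTransition.nonneg _
  have hκ1p : ∀ t, t < 1 → 0 < κ₁ t := fun t ht =>
    Real.smoothTransition.pos_of_pos (by linarith)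
  have hRK1 : RK κ₁ := ⟨hκ1s, 1, hκ10⟩
  have hB : 0 < ∫ t in (0 : ℝ)..1, κ₁ t :=
    intervalIntegral.intervalIntegral_pos_of_pos_on
      (hκ1s.continuous.intervalIntegrable 0 1) (fun t ht => hκ1p t ht.2) zero_lt_one
  have hm : 0 < ∫ w : ℍ, κ₁ (tt UpperHalfPlane.I w) := by
    obtain ⟨hc, hs⟩ := MAS_int h1 h4 κ₁ hRK1 UpperHalfPlane.I
    refine hc.integral_pos_of_hasCompactSupport_nonneg_nonzero hs (fun w => hκ1n _)
      (x := UpperHalfPlane.I) ?_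
    have : tt UpperHalfPlane.I UpperHalfPlane.I = 0 := by
      unfold tt
      simp
    rw [this]
    exact (hκ1p 0 zero_lt_one).ne'
  refine ⟨(∫ w : ℍ, κ₁ (tt UpperHalfPlane.I w)) / ∫ t in (0 : ℝ)..1, κ₁ t, div_pos hm hB, ?_⟩
  intro κ s hκ hs hκ0 z
  have hRK : RK κ := ⟨hκ, s, hκ0⟩
  -- enlarge the interval
  have ext : ∀ (f : ℝ → ℝ) (a b : ℝ), ContDiff ℝ ∞ f → a ≤ b → (∀ t, a ≤ t → f t = 0) →
      (∫ t in (0 : ℝ)..b, f t) = ∫ t in (0 : ℝ)..a, f t := by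
    intro f a b hf hab h0
    rw [← intervalIntegral.integral_add_adjacent_intervals (a := 0) (b := a) (c := b)
      (hf.continuous.intervalIntegrable _ _) (hf.continuous.intervalIntegrable _ _)]
    have : (∫ t in a..b, f t) = ∫ t in a..b, (0 : ℝ) := by
      refine intervalIntegral.integral_congr fun t ht => ?_
      rw [uIcc_of_le hab] at ht
      exact h0 t ht.1
    rw [this]
    simp
  set S := max s 1 with hS
  have hsS : s ≤ S := le_max_left _ _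
  have h1S : 1 ≤ S := le_max_right _ _
  have hA := ext κ s S hκ hsS hκ0
  have hB' := ext κ₁ 1 S hκ1s h1S hκ10
  set A := ∫ t in (0 : ℝ)..s, κ t with hAdef
  set B := ∫ t in (0 : ℝ)..1, κ₁ t with hBdef
  let θ : ℝ → ℝ := fun t => κ t - A / B * κ₁ t
  have hθ : ContDiff ℝ ∞ θ := hκ.sub (contDiff_const.mul hκ1s)
  have hθ0 : ∀ t, S ≤ t → θ t = 0 := by
    intro t ht
    simp only [θ]
    rw [hκ0 t (hsS.trans ht), hκ10 t (h1S.trans ht)]
    ring
  have hθi : (∫ t in (0 : ℝ)..S, θ t) = 0 := by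
    have j1 : IntervalIntegrable κ volume 0 S := hκ.continuous.intervalIntegrable _ _
    have j2 : IntervalIntegrable (fun t => A / B * κ₁ t) volume 0 S :=
      (continuous_const.mul hκ1s.continuous).intervalIntegrable _ _
    have j3 := intervalIntegral.integral_sub j1 j2
    simp only [θ]
    rw [j3, intervalIntegral.integral_const_mul, hA, hB', div_mul_cancel₀ _ hB.ne', sub_self]
  have hz := MAS_zero h1 h3 h4 h5 h6 θ S hθ (lt_of_lt_of_le hs hsS) hθ0 hθi z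
  obtain ⟨c1, s1⟩ := MAS_int h1 h4 κ hRK z
  obtain ⟨c2, s2⟩ := MAS_int h1 h4 κ₁ hRK1 z
  have i1 : Integrable (fun w : ℍ => κ (tt z w)) := c1.integrable_of_hasCompactSupport s1
  have i2 : Integrable (fun w : ℍ => κ₁ (tt z w)) := c2.integrable_of_hasCompactSupport s2
  simp only [θ] at hz
  rw [integral_sub i1 (i2.const_mul _), integral_const_mul,
    MAS_inv h1 h2 κ₁ z UpperHalfPlane.I] at hz
  rw [sub_eq_zero.1 hz]
  field_simp

end Pool.Agent.QU
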